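import Mathlib
import Pool.Agent.GracefulAsym.Assign

set_option autoImplicit false

/-! # Antimagic labellings of graphs in which every non-leaf vertex has a leaf neighbour -/

namespace Pool.Agent.Antimagic

open Finset

variable {V : Type*} [Fintype V] [DecidableEq V] (G : SimpleGraph V) [DecidableRel G.Adj]

/-- The sum over incident edges is a sum over neighbours. -/
theorem sum_inc (f : Sym2 V → ℕ) (v : V) :
    ∑ e ∈ G.incidenceFinset v, f e = ∑ u ∈ G.neighborFinset v, f s(v, u) := by
  have h : G.incidenceFinset v = (G.neighborFinset v).image (fun u => s(v, u)) := by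
    ext e
    induction e using Sym2.ind with
    | _ x y =>
      simp only [SimpleGraph.mem_incidenceFinset, SimpleGraph.mk'_mem_incidenceSet_iff, mem_image,
        SimpleGraph.mem_neighborFinset, Sym2.eq_iff]
      constructor
      · rintro ⟨hxy, rfl | rfl⟩
        · exact ⟨y, hxy, Or.inl ⟨rfl, rfl⟩⟩
        · exact ⟨x, hxy.symm, Or.inr ⟨rfl, rfl⟩⟩
      · rintro ⟨u, hu, ⟨rfl, rfl⟩ | ⟨rfl, rfl⟩⟩
        · exact ⟨hu, Or.inl rfl⟩
        · exact ⟨hu.symm, Or.inr rfl⟩
  rw [h, Finset.sum_image]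
  intro a _ b _ hab
  rcases (show a = b ∨ v = b ∧ a = v by simpa using hab) with h | ⟨h1, h2⟩
  · exact h
  · exact h2.trans h1

theorem exists_enum {ι : Type*} [DecidableEq ι] (S : Finset ι) :
    ∃ e : ι → ℕ, (∀ i ∈ S, e i < S.card) ∧ (∀ i ∈ S, ∀ j ∈ S, e i = e j → i = j) := by
  obtain ⟨e, h1, h2, -⟩ := GracefulAsym.exists_rank S (fun _ => 0)
  exact ⟨e, h1, h2⟩

/-- A ranking of a finite set by increasing key. -/
theorem exists_rank_incr {ι : Type*} [DecidableEq ι] (S : Finset ι) (key : ι → ℕ) :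
    ∃ idx : ι → ℕ, (∀ i ∈ S, idx i < S.card) ∧ (∀ i ∈ S, ∀ j ∈ S, idx i = idx j → i = j) ∧
      (∀ i ∈ S, ∀ j ∈ S, idx i < idx j → key i ≤ key j) := by
  obtain ⟨e, h1, h2, h3⟩ := GracefulAsym.exists_rank S key
  refine ⟨fun i => S.card - 1 - e i, ?_, ?_, ?_⟩
  · intro i hi
    have := h1 i hi
    simp only
    omega
  · intro i hi j hj h
    have := h1 i hi
    have := h1 j hj
    simp only at h
    exact h2 i hi j hj (by omega)
  · intro i hi j hj h
    have := h1 i hi
    have := h1 j hj
    simp only at h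
    exact h3 j hj i hi (by omega)

theorem leaf_neighbour
    (h0 : ∀ v, 0 < G.degree v)
    (h2 : ∀ u v, G.Adj u v → ¬ (G.degree u = 1 ∧ G.degree v = 1))
    (h3 : ∀ u v w, G.Adj u v → G.Adj v w → u ≠ w →
        ¬ (G.degree u = 1 ∧ G.degree w = 1 ∧ G.degree v = 2))
    (hL : ∀ v, 2 ≤ G.degree v → ∃ u, G.Adj v u ∧ G.degree u = 1) :
    ∃ f : Sym2 V → ℕ,
      Set.BijOn f (↑G.edgeFinset : Set (Sym2 V)) (Set.Icc 1 G.edgeFinset.card) ∧
      Function.Injective (fun v => ∑ e ∈ G.incidenceFinset v, f e) := by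
  classical
  -- unique neighbour of a leaf
  have huniq : ∀ u, G.degree u = 1 → ∀ a b, G.Adj u a → G.Adj u b → a = b := by
    intro u hu a b ha hb
    obtain ⟨c, hc⟩ := Finset.card_eq_one.1 hu
    have ha' : a ∈ G.neighborFinset u := by simpa using ha
    have hb' : b ∈ G.neighborFinset u := by simpa using hb
    rw [hc, mem_singleton] at ha' hb'
    rw [ha', hb']
  have hnb : ∀ u, ∃ w, G.Adj u w := by
    intro u
    obtain ⟨w, hw⟩ := Finset.card_pos.1 (h0 u)
    exact ⟨w, by simpa using hw⟩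
  choose nb hnb using hnb
  have hnbeq : ∀ u v, G.degree u = 1 → G.Adj v u → nb u = v := by
    intro u v hu hv
    exact huniq u hu _ _ (hnb u) hv.symm
  choose! ℓ hℓ1 hℓ2 using hL
  -- star centres
  have hS : ∀ v, (2 ≤ G.degree v ∧ ∀ u, G.Adj v u → G.degree u = 1) →
      ∃ a b, G.Adj v a ∧ G.Adj v b ∧ a ≠ b ∧ a ≠ ℓ v ∧ b ≠ ℓ v := by
    rintro v ⟨hv, hall⟩
    have hlv : ℓ v ∈ G.neighborFinset v := by simpa using hℓ1 v hv
    have hc : (G.neighborFinset v).card = G.degree v := rfl
    have hce : ((G.neighborFinset v).erase (ℓ v)).card = G.degree v - 1 := by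
      rw [Finset.card_erase_of_mem hlv, hc]
    have h1 : 1 < ((G.neighborFinset v).erase (ℓ v)).card := by
      rw [hce]
      by_contra hcon
      have hd : G.degree v = 2 := by omega
      have hpos : 0 < ((G.neighborFinset v).erase (ℓ v)).card := by rw [hce]; omega
      obtain ⟨a, ha⟩ := Finset.card_pos.1 hpos
      rw [mem_erase, SimpleGraph.mem_neighborFinset] at ha
      exact h3 a v (ℓ v) ha.2.symm (hℓ1 v hv) ha.1
        ⟨hall a ha.2, hℓ2 v hv, hd⟩
    obtain ⟨a, ha, b, hb, hab⟩ := Finset.one_lt_card.1 h1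
    rw [mem_erase, SimpleGraph.mem_neighborFinset] at ha hb
    exact ⟨a, b, ha.2, hb.2, hab, ha.1, hb.1⟩
  choose! a b ha hb hab haℓ hbℓ using hS
  set Lf : Finset V := univ.filter (fun v => G.degree v = 1) with hLf
  set N : Finset V := univ.filter (fun v => 2 ≤ G.degree v) with hN
  set S : Finset V := univ.filter (fun v => 2 ≤ G.degree v ∧ ∀ u, G.Adj v u → G.degree u = 1)
    with hSdef
  have memLf : ∀ u, u ∈ Lf ↔ G.degree u = 1 := by intro u; simp [hLf]
  have memN : ∀ u, u ∈ N ↔ 2 ≤ G.degree u := by intro u; simp [hN]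
  have memS : ∀ v, v ∈ S ↔ (2 ≤ G.degree v ∧ ∀ u, G.Adj v u → G.degree u = 1) := by
    intro u; simp [hSdef]
  have haL : ∀ v ∈ S, G.degree (a v) = 1 := fun v hv =>
    ((memS v).1 hv).2 _ (ha v ((memS v).1 hv))
  have hbL : ∀ v ∈ S, G.degree (b v) = 1 := fun v hv =>
    ((memS v).1 hv).2 _ (hb v ((memS v).1 hv))
  have nba : ∀ v ∈ S, nb (a v) = v := fun v hv => hnbeq _ _ (haL v hv) (ha v ((memS v).1 hv))
  have nbb : ∀ v ∈ S, nb (b v) = v := fun v hv => hnbeq _ _ (hbL v hv) (hb v ((memS v).1 hv))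
  have nbl : ∀ v ∈ N, nb (ℓ v) = v := fun v hv =>
    hnbeq _ _ (hℓ2 v ((memN v).1 hv)) (hℓ1 v ((memN v).1 hv))
  set R : Finset V := N.image ℓ with hR
  set P1 : Finset V := S.image a with hP1
  set P2 : Finset V := S.image b with hP2
  set O : Finset V := Lf \ (R ∪ (P1 ∪ P2)) with hO
  have cR : R.card = N.card := Finset.card_image_of_injOn fun x hx y hy hxy => by
    rw [← nbl x hx, ← nbl y hy]; exact congrArg nb hxy
  have cP1 : P1.card = S.card := Finset.card_image_of_injOn fun x hx y hy hxy => by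
    rw [← nba x hx, ← nba y hy]; exact congrArg nb hxy
  have cP2 : P2.card = S.card := Finset.card_image_of_injOn fun x hx y hy hxy => by
    rw [← nbb x hx, ← nbb y hy]; exact congrArg nb hxy
  have memR : ∀ u, u ∈ R ↔ nb u ∈ N ∧ u = ℓ (nb u) := by
    intro u
    simp only [hR, mem_image]
    constructor
    · rintro ⟨v, hv, rfl⟩
      rw [nbl v hv]; exact ⟨hv, rfl⟩
    · rintro ⟨h, h'⟩
      exact ⟨nb u, h, h'.symm⟩
  have memP1 : ∀ u, u ∈ P1 ↔ nb u ∈ S ∧ u = a (nb u) := by
    intro u
    simp only [hP1, mem_image]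
    constructor
    · rintro ⟨v, hv, rfl⟩
      rw [nba v hv]; exact ⟨hv, rfl⟩
    · rintro ⟨h, h'⟩
      exact ⟨nb u, h, h'.symm⟩
  have memP2 : ∀ u, u ∈ P2 ↔ nb u ∈ S ∧ u = b (nb u) := by
    intro u
    simp only [hP2, mem_image]
    constructor
    · rintro ⟨v, hv, rfl⟩
      rw [nbb v hv]; exact ⟨hv, rfl⟩
    · rintro ⟨h, h'⟩
      exact ⟨nb u, h, h'.symm⟩
  have dRP1 : ∀ u, u ∈ R → u ∈ P1 → False := by
    intro u hu hu'
    rw [memR] at hu; rw [memP1] at hu'
    exact haℓ _ ((memS _).1 hu'.1) (hu'.2.symm.trans hu.2)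
  have dRP2 : ∀ u, u ∈ R → u ∈ P2 → False := by
    intro u hu hu'
    rw [memR] at hu; rw [memP2] at hu'
    exact hbℓ _ ((memS _).1 hu'.1) (hu'.2.symm.trans hu.2)
  have dP1P2 : ∀ u, u ∈ P1 → u ∈ P2 → False := by
    intro u hu hu'
    rw [memP1] at hu; rw [memP2] at hu'
    exact hab _ ((memS _).1 hu'.1) (hu.2.symm.trans hu'.2)
  have hRL : R ⊆ Lf := by
    intro u hu
    simp only [hR, mem_image] at hu
    obtain ⟨v, hv, rfl⟩ := hu
    exact (memLf _).2 (hℓ2 v ((memN v).1 hv))
  have hP1L : P1 ⊆ Lf := by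
    intro u hu
    simp only [hP1, mem_image] at hu
    obtain ⟨v, hv, rfl⟩ := hu
    exact (memLf _).2 (haL v hv)
  have hP2L : P2 ⊆ Lf := by
    intro u hu
    simp only [hP2, mem_image] at hu
    obtain ⟨v, hv, rfl⟩ := hu
    exact (memLf _).2 (hbL v hv)
  set r := N.card with hr
  set s := S.card with hs
  set M0 := Lf.card with hM0
  have cU : (R ∪ (P1 ∪ P2)).card = r + (s + s) := by
    rw [Finset.card_union_of_disjoint, Finset.card_union_of_disjoint, cR, cP1, cP2]
    · exact Finset.disjoint_left.2 fun u h h' => dP1P2 u h h'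
    · refine Finset.disjoint_left.2 fun u h h' => ?_
      rcases mem_union.1 h' with h' | h'
      · exact dRP1 u h h'
      · exact dRP2 u h h'
  have hUL : R ∪ (P1 ∪ P2) ⊆ Lf := union_subset hRL (union_subset hP1L hP2L)
  have cO : O.card + (r + (s + s)) = M0 := by
    rw [hO, ← cU, Finset.card_sdiff_add_card_eq_card hUL]
  obtain ⟨eS, eS1, eS2⟩ := exists_enum S
  obtain ⟨eO, eO1, eO2⟩ := exists_enum O
  -- edges
  set LE : Finset (Sym2 V) := G.edgeFinset.filter (fun e => ∃ u, u ∈ e ∧ G.degree u = 1) with hLE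
  set NE : Finset (Sym2 V) := G.edgeFinset.filter (fun e => ¬ ∃ u, u ∈ e ∧ G.degree u = 1) with hNE
  obtain ⟨k, k1, k2⟩ := exists_enum NE
  have cLE : LE.card = M0 := by
    symm
    apply Finset.card_bij (fun u _ => s(u, nb u))
    · intro u hu
      rw [hLE, mem_filter, SimpleGraph.mem_edgeFinset, SimpleGraph.mem_edgeSet]
      exact ⟨hnb u, u, Sym2.mem_mk_left _ _, (memLf u).1 hu⟩
    · intro u hu w hw h
      rcases Sym2.eq_iff.1 h with h | h
      · exact h.1
      · exfalso
        exact h2 u w (h.2 ▸ hnb u) ⟨(memLf u).1 hu, (memLf w).1 hw⟩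
    · intro e he
      rw [hLE, mem_filter] at he
      obtain ⟨he, u, hue, hu⟩ := he
      obtain ⟨w, rfl⟩ := hue
      rw [SimpleGraph.mem_edgeFinset, SimpleGraph.mem_edgeSet] at he
      exact ⟨u, (memLf u).2 hu, by rw [hnbeq u w hu he.symm]⟩
  have cNE : M0 + NE.card = G.edgeFinset.card := by
    rw [← cLE, hLE, hNE]
    exact Finset.card_filter_add_card_filter_not _
  -- labels of the non-reserved leaf edges
  set g' : V → ℕ := fun u => if u ∈ P1 then r + 1 + eS (nb u) else
    if u ∈ P2 then M0 - eS (nb u) else r + s + 1 + eO u with hg'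
  set p : V → ℕ := fun v => ∑ u ∈ (G.neighborFinset v).erase (ℓ v),
    (if G.degree u = 1 then g' u else M0 + 1 + k s(v, u)) with hp
  obtain ⟨rk, rk1, rk2, rk3⟩ := exists_rank_incr N p
  set g : V → ℕ := fun u => if u ∈ R then rk (nb u) + 1 else g' u with hg
  -- values of `g`
  have gR : ∀ u ∈ R, g u = rk (nb u) + 1 := by intro u hu; simp [hg, hu]
  have gP1 : ∀ u ∈ P1, g u = r + 1 + eS (nb u) := by
    intro u hu
    have h1 : u ∉ R := fun h => dRP1 u h hu
    simp [hg, h1, hg', hu]
  have gP2 : ∀ u ∈ P2, g u = M0 - eS (nb u) := by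
    intro u hu
    have h1 : u ∉ R := fun h => dRP2 u h hu
    have h1' : u ∉ P1 := fun h => dP1P2 u h hu
    simp [hg, h1, hg', hu, h1']
  have gO : ∀ u ∈ O, g u = r + s + 1 + eO u := by
    intro u hu
    rw [hO, mem_sdiff, mem_union, mem_union] at hu
    push Not at hu
    simp [hg, hu.2.1, hg', hu.2.2.1, hu.2.2.2]
  have hcases : ∀ u ∈ Lf, u ∈ R ∨ u ∈ P1 ∨ u ∈ P2 ∨ u ∈ O := by
    intro u hu
    by_cases h1 : u ∈ R ∪ (P1 ∪ P2)
    · rw [mem_union, mem_union] at h1; tauto
    · right; right; right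
      rw [hO, mem_sdiff]; exact ⟨hu, h1⟩
  -- ranges
  have rR : ∀ u ∈ R, 1 ≤ g u ∧ g u ≤ r := by
    intro u hu
    rw [gR u hu]
    have := rk1 _ ((memR u).1 hu).1
    omega
  have rP1 : ∀ u ∈ P1, r + 1 ≤ g u ∧ g u ≤ r + s := by
    intro u hu
    rw [gP1 u hu]
    have := eS1 _ ((memP1 u).1 hu).1
    omega
  have rP2 : ∀ u ∈ P2, M0 - s + 1 ≤ g u ∧ g u ≤ M0 := by
    intro u hu
    rw [gP2 u hu]
    have := eS1 _ ((memP2 u).1 hu).1
    omega
  have rO : ∀ u ∈ O, r + s + 1 ≤ g u ∧ g u ≤ M0 - s := by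
    intro u hu
    rw [gO u hu]
    have := eO1 _ hu
    omega
  have gpos : ∀ u ∈ Lf, 1 ≤ g u ∧ g u ≤ M0 := by
    intro u hu
    rcases hcases u hu with h | h | h | h
    · have := rR u h; omega
    · have := rP1 u h; omega
    · have := rP2 u h; omega
    · have := rO u h; omega
  have ginj : ∀ u ∈ Lf, ∀ w ∈ Lf, g u = g w → u = w := by
    intro u hu w hw h
    rcases hcases u hu with h1 | h1 | h1 | h1 <;> rcases hcases w hw with h2 | h2 | h2 | h2
    · rw [gR u h1, gR w h2] at h
      have h3 := rk2 _ ((memR u).1 h1).1 _ ((memR w).1 h2).1 (by omega)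
      rw [((memR u).1 h1).2, ((memR w).1 h2).2, h3]
    · have := rR u h1; have := rP1 w h2; omega
    · have := rR u h1; have := rP2 w h2; omega
    · have := rR u h1; have := rO w h2; omega
    · have := rP1 u h1; have := rR w h2; omega
    · rw [gP1 u h1, gP1 w h2] at h
      have h3 := eS2 _ ((memP1 u).1 h1).1 _ ((memP1 w).1 h2).1 (by omega)
      rw [((memP1 u).1 h1).2, ((memP1 w).1 h2).2, h3]
    · have := rP1 u h1; have := rP2 w h2; omega
    · have := rP1 u h1; have := rO w h2; omega
    · have := rP2 u h1; have := rR w h2; omega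
    · have := rP2 u h1; have := rP1 w h2; omega
    · rw [gP2 u h1, gP2 w h2] at h
      have := eS1 _ ((memP2 u).1 h1).1
      have := eS1 _ ((memP2 w).1 h2).1
      have h3 := eS2 _ ((memP2 u).1 h1).1 _ ((memP2 w).1 h2).1 (by omega)
      rw [((memP2 u).1 h1).2, ((memP2 w).1 h2).2, h3]
    · have := rP2 u h1; have := rO w h2; omega
    · have := rO u h1; have := rR w h2; omega
    · have := rO u h1; have := rP1 w h2; omega
    · have := rO u h1; have := rP2 w h2; omega
    · rw [gO u h1, gO w h2] at h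
      exact eO2 _ h1 _ h2 (by omega)
  -- the labelling
  set f : Sym2 V → ℕ := fun e => if h : ∃ u, u ∈ e ∧ G.degree u = 1 then g h.choose
    else M0 + 1 + k e with hf
  have fleaf : ∀ v u, G.Adj v u → G.degree u = 1 → f s(v, u) = g u := by
    intro v u hvu hu
    have hex : ∃ w, w ∈ s(v, u) ∧ G.degree w = 1 := ⟨u, Sym2.mem_mk_right _ _, hu⟩
    simp only [hf, dif_pos hex]
    have hch := hex.choose_spec
    rcases Sym2.mem_iff.1 hch.1 with h | h
    · exfalso
      rw [h] at hch
      exact h2 v u hvu ⟨hch.2, hu⟩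
    · rw [h]
  have fnon : ∀ v u, G.degree v ≠ 1 → G.degree u ≠ 1 → f s(v, u) = M0 + 1 + k s(v, u) := by
    intro v u hv hu
    have hex : ¬ ∃ w, w ∈ s(v, u) ∧ G.degree w = 1 := by
      rintro ⟨w, hw, hw1⟩
      rcases Sym2.mem_iff.1 hw with rfl | rfl
      · exact hv hw1
      · exact hu hw1
    simp only [hf, dif_neg hex]
  have fLE : ∀ e ∈ LE, ∃ u ∈ Lf, u ∈ e ∧ f e = g u ∧ e = s(nb u, u) := by
    intro e he
    rw [hLE, mem_filter] at he
    obtain ⟨he, u, hue, hu⟩ := he
    obtain ⟨w, rfl⟩ := hue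
    rw [SimpleGraph.mem_edgeFinset, SimpleGraph.mem_edgeSet] at he
    refine ⟨u, (memLf u).2 hu, Sym2.mem_mk_left _ _, ?_, ?_⟩
    · rw [Sym2.eq_swap]; exact fleaf w u he.symm hu
    · rw [hnbeq u w hu he.symm, Sym2.eq_swap]
  have fNE : ∀ e ∈ NE, f e = M0 + 1 + k e := by
    intro e he
    rw [hNE, mem_filter] at he
    simp only [hf, dif_neg he.2]
  have hsplit : ∀ e ∈ G.edgeFinset, e ∈ LE ∨ e ∈ NE := by
    intro e he
    by_cases h : ∃ u, u ∈ e ∧ G.degree u = 1
    · left; rw [hLE, mem_filter]; exact ⟨he, h⟩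
    · right; rw [hNE, mem_filter]; exact ⟨he, h⟩
  have hmaps : ∀ e ∈ G.edgeFinset, f e ∈ Finset.Icc 1 G.edgeFinset.card := by
    intro e he
    rw [Finset.mem_Icc]
    rcases hsplit e he with h | h
    · obtain ⟨u, hu, -, h', -⟩ := fLE e h
      have := gpos u hu
      omega
    · have := fNE e h
      have := k1 e h
      omega
  have hinj : ∀ e ∈ G.edgeFinset, ∀ e' ∈ G.edgeFinset, f e = f e' → e = e' := by
    intro e he e' he' h
    rcases hsplit e he with h1 | h1 <;> rcases hsplit e' he' with h2 | h2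
    · obtain ⟨u, hu, -, h3, h4⟩ := fLE e h1
      obtain ⟨u', hu', -, h3', h4'⟩ := fLE e' h2
      have := ginj u hu u' hu' (by omega)
      rw [h4, h4', this]
    · obtain ⟨u, hu, -, h3, h4⟩ := fLE e h1
      have := gpos u hu
      have := fNE e' h2
      omega
    · obtain ⟨u', hu', -, h3', h4'⟩ := fLE e' h2
      have := gpos u' hu'
      have := fNE e h1
      omega
    · have h3 := fNE e h1
      have h4 := fNE e' h2
      exact k2 e h1 e' h2 (by omega)
  refine ⟨f, ?_, ?_⟩
  · refine ⟨?_, ?_, ?_⟩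
    · intro e he
      have := hmaps e he
      simpa using this
    · intro e he e' he' h
      exact hinj e he e' he' h
    · have himg : G.edgeFinset.image f = Finset.Icc 1 G.edgeFinset.card := by
        apply Finset.eq_of_subset_of_card_le
        · intro x hx
          obtain ⟨e, he, rfl⟩ := mem_image.1 hx
          exact hmaps e he
        · rw [Finset.card_image_of_injOn (fun e he e' he' h => hinj e he e' he' h)]
          simp
      intro x hx
      have : x ∈ G.edgeFinset.image f := by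
        rw [himg]; simpa using hx
      obtain ⟨e, he, rfl⟩ := mem_image.1 this
      exact ⟨e, he, rfl⟩
  · -- vertex sums
    have sumleaf : ∀ v, G.degree v = 1 → ∑ e ∈ G.incidenceFinset v, f e = g v := by
      intro v hv
      rw [sum_inc]
      have : G.neighborFinset v = {nb v} := by
        ext w
        rw [SimpleGraph.mem_neighborFinset, mem_singleton]
        constructor
        · intro h; exact huniq v hv _ _ h (hnb v)
        · rintro rfl; exact hnb v
      rw [this, Finset.sum_singleton, Sym2.eq_swap]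
      exact fleaf _ _ (hnb v).symm hv
    have sumnon : ∀ v ∈ N, ∑ e ∈ G.incidenceFinset v, f e = (rk v + 1) + p v := by
      intro v hv
      have hv' := (memN v).1 hv
      have hmem : ℓ v ∈ G.neighborFinset v := by
        rw [SimpleGraph.mem_neighborFinset]; exact hℓ1 v hv'
      rw [sum_inc, ← Finset.add_sum_erase _ _ hmem, fleaf v (ℓ v) (hℓ1 v hv') (hℓ2 v hv'),
        gR (ℓ v) (mem_image_of_mem _ hv), nbl v hv, hp]
      congr 1
      apply Finset.sum_congr rfl
      intro u hu
      rw [mem_erase, SimpleGraph.mem_neighborFinset] at hu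
      by_cases h1 : G.degree u = 1
      · rw [fleaf v u hu.2 h1, if_pos h1]
        have : u ∉ R := by
          intro h
          have h4 := ((memR u).1 h).2
          rw [hnbeq u v h1 hu.2] at h4
          exact hu.1 h4
        simp [hg, this]
      · rw [if_neg h1]
        exact fnon v u (by omega) h1
    have pbig : ∀ v ∈ N, M0 ≤ p v := by
      intro v hv
      have hv' := (memN v).1 hv
      by_cases hvS : v ∈ S
      · have hvS' := (memS v).1 hvS
        have hma : a v ∈ (G.neighborFinset v).erase (ℓ v) := by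
          rw [mem_erase, SimpleGraph.mem_neighborFinset]
          exact ⟨haℓ v hvS', ha v hvS'⟩
        have hmb : b v ∈ ((G.neighborFinset v).erase (ℓ v)).erase (a v) := by
          rw [mem_erase, mem_erase, SimpleGraph.mem_neighborFinset]
          exact ⟨(hab v hvS').symm, hbℓ v hvS', hb v hvS'⟩
        have haP : a v ∈ P1 := mem_image_of_mem _ hvS
        have hbP : b v ∈ P2 := mem_image_of_mem _ hvS
        have haR : a v ∉ R := fun h => dRP1 _ h haP
        have hbR : b v ∉ R := fun h => dRP2 _ h hbP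
        have e1 : g' (a v) = r + 1 + eS v := by
          have := gP1 _ haP
          rw [nba v hvS] at this
          rw [← this]; simp [hg, haR]
        have e2 : g' (b v) = M0 - eS v := by
          have := gP2 _ hbP
          rw [nbb v hvS] at this
          rw [← this]; simp [hg, hbR]
        have := eS1 v hvS
        rw [hp]
        simp only
        rw [← Finset.add_sum_erase _ _ hma, ← Finset.add_sum_erase _ _ hmb,
          if_pos (haL v hvS), if_pos (hbL v hvS), e1, e2]
        omega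
      · have : ∃ u, G.Adj v u ∧ G.degree u ≠ 1 := by
          by_contra hcon
          push Not at hcon
          exact hvS ((memS v).2 ⟨hv', hcon⟩)
        obtain ⟨u, hvu, hu⟩ := this
        have hmu : u ∈ (G.neighborFinset v).erase (ℓ v) := by
          rw [mem_erase, SimpleGraph.mem_neighborFinset]
          refine ⟨?_, hvu⟩
          rintro rfl
          exact hu (hℓ2 v hv')
        rw [hp]
        simp only
        rw [← Finset.add_sum_erase _ _ hmu, if_neg hu]
        omega
    have hdich : ∀ v, G.degree v = 1 ∨ v ∈ N := by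
      intro v
      have := h0 v
      rcases Nat.lt_or_ge (G.degree v) 2 with h | h
      · left; omega
      · right; exact (memN v).2 h
    intro v w hvw
    simp only at hvw
    rcases hdich v with hv | hv <;> rcases hdich w with hw | hw
    · rw [sumleaf v hv, sumleaf w hw] at hvw
      exact ginj v ((memLf v).2 hv) w ((memLf w).2 hw) hvw
    · rw [sumleaf v hv, sumnon w hw] at hvw
      have := gpos v ((memLf v).2 hv)
      have := pbig w hw
      omega
    · rw [sumnon v hv, sumleaf w hw] at hvw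
      have := gpos w ((memLf w).2 hw)
      have := pbig v hv
      omega
    · rw [sumnon v hv, sumnon w hw] at hvw
      rcases lt_trichotomy (rk v) (rk w) with h | h | h
      · have := rk3 v hv w hw h; omega
      · exact rk2 v hv w hw h
      · have := rk3 w hw v hv h; omega

end Pool.Agent.Antimagic
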